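import Pool.Agent.H895Z.SHMain

set_option autoImplicit false

/-! Consistently there is a star-Hurewicz Isbell-Mrowka space of cardinality at least `𝔟`. -/

namespace Pool.Agent.Results.MP_b1d3ea_lc.ConsistentlyYes

open Pool.Agent.H895Z.SH

/-- (1) Some forcing notion forces the principle `SHPr K g`. (2) In ZFC the principle gives an
almost disjoint family of size at least `𝔟` whose Isbell-Mrowka space is star-Hurewicz. -/
theorem result :
    (∃ (P : Type) (_ : Preorder P) (K : Type) (g : K → ℕ → ℕ),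
      Nonempty P ∧ ∀ p : P, p ∈ FSHPr P K g) ∧
    (∀ (K : Type) (g : K → ℕ → ℕ), SHPr K g →
      ∃ 𝒜 : Set (Set ℕ), IsAD 𝒜 ∧ bb ≤ Cardinal.mk 𝒜 ∧ StarHurewicz (psiTop 𝒜)) :=
  ⟨forcing_part, fun _ _ h => zfc_part h⟩

end Pool.Agent.Results.MP_b1d3ea_lc.ConsistentlyYes
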